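import Pool.Agent.Helper66_ML.Stmts2

/-!
# Squad ML, stage 2, row WDVS: from the sets of tuples to the alternating sums over the chains
-/

set_option autoImplicit false

noncomputable section

namespace Pool.Agent.PP.ML.H48

open Pool.Agent.Helper51_AWC Pool.Agent.Helper79_WRA Pool.Agent.PP Pool.Agent.Helper98_CC

theorem wdvL (wda : WdaStmt) (tl1 : TL1Stmt) : WdvLStmt := by
  intro ℓ _ G A _ _ _ R g ρ hR hc Cs hCs k hk
  exact wda ℓ G R g hR Cs _ fun X _ _ => tl1 G X A R g ρ hc Cs hCs k hk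

theorem wdv3 (wda : WdaStmt) (tl3 : TL3Stmt) : Wdv3Stmt := by
  intro ℓ _ G A _ _ _ R g ρ hR hc K K' hK hK' k hk h3
  exact wda ℓ G R g hR [K, K'] _ fun X _ _ => tl3 G X A R g ρ hc K K' hK hK' k hk h3

theorem wdv2 (wda : WdaStmt) (tl2 : TL2Stmt) : Wdv2Stmt := by
  intro ℓ _ G A _ _ _ R g ρ hR hc K hK k hk h2
  exact wda ℓ G R g hR [K] _ fun X _ _ => tl2 G X A R g ρ hc K hK k hk h2

end Pool.Agent.PP.ML.H48
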